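import Pool.Agent.U148.CV.Low
import Pool.Agent.W814.BB.Asym

/-!
# The exponent
-/

set_option autoImplicit false

open Finset Filter Topology

namespace Pool.Agent.U148.CV

open Pool.Agent.H435R2.GreenCore Pool.Agent.H170R2.PC Pool.Agent.W814.BB

/-- the main inequality, in terms of `Cov` -/
theorem tri_nat {ms : Finset ℕ} {c : ℝ} (hc1 : 1 < c) (h0 : ms.Nonempty)
    (hpos : ∀ m ∈ ms, 0 < m) (hSB : SliceBound ms c) :
    ∃ K : ℕ, 0 < K ∧ ∀ (D : Finset ℕ) (a : (p : ℕ) → ZMod p) (Yc N B : ℕ),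
      (∀ p ∈ D, p.Prime ∧ Yc ≤ p ∧ p ≤ 2 * Yc) → N ≤ Yc * Yc → K < Yc →
      B * (8 * K * Yc) < N →
      (B : ℝ) ^ 2 * ((#D : ℝ) * B) ^ 2 ≤ #(Cov D a N) *
        ((#(Cov D a N) : ℝ) ^ (1 - 1 / c) * (ms.card * (#(Cov D a N) : ℝ) ^ 2) +
          B * (4 * (#(Cov D a N) : ℝ) ^ 2)) := by
  classical
  obtain ⟨X, hX⟩ : ∃ X, X = ms.sup id + 1 := ⟨_, rfl⟩
  obtain ⟨Y, hY⟩ : ∃ Y, Y = 2 * ∏ m ∈ ms, (X - m) := ⟨_, rfl⟩
  have hmX : ∀ m ∈ ms, m < X := by
    intro m hm
    have : m ≤ ms.sup id := Finset.le_sup (f := id) hm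
    omega
  have hX0 : 0 < X := by omega
  have hprod : 0 < ∏ m ∈ ms, (X - m) := by
    refine prod_pos fun m hm => ?_
    have := hmX m hm
    omega
  have hY2 : 2 ≤ Y := by omega
  have hXK : X ≤ X * Y := Nat.le_mul_of_pos_right _ (by omega)
  have hYK : Y ≤ X * Y := Nat.le_mul_of_pos_left _ hX0
  have hms : ∀ m ∈ ms, 0 < m ∧ m < X ∧ (X - m) ∣ Y ∧ m * Y ≤ X * Y := by
    intro m hm
    refine ⟨hpos m hm, hmX m hm, ?_, Nat.mul_le_mul_right _ (hmX m hm).le⟩
    rw [hY]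
    exact (dvd_prod_of_mem (fun m => X - m) hm).mul_left 2
  refine ⟨X * Y, by positivity, ?_⟩
  intro D a Yc N B hD hYN hKY hB
  obtain ⟨K, hK⟩ : ∃ K, K = X * Y := ⟨_, rfl⟩
  rw [← hK] at hXK hYK hms hKY hB
  have hK0 : 0 < K := by omega
  obtain ⟨b, hb⟩ := exists_lift a
  rw [card_Cov hb]
  set L := K * (2 * Yc * B) with hL
  have hYc0 : 0 < Yc := by omega
  have hKB : Yc * B ≤ K * (Yc * B) := Nat.le_mul_of_pos_left _ hK0
  have hB' : 8 * (K * (Yc * B)) < N := by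
    calc 8 * (K * (Yc * B)) = B * (8 * K * Yc) := by ring
      _ < N := hB
  have hL' : L = 2 * (K * (Yc * B)) := by rw [hL]; ring
  have hqB : ∀ q ∈ D, q * B ≤ 2 * (Yc * B) := by
    intro q hq
    calc q * B ≤ (2 * Yc) * B := Nat.mul_le_mul_right _ (hD q hq).2.2
      _ = _ := by ring
  have hctx : Ctx N D B L K := by
    refine ⟨fun p hp => (hD p hp).1, ?_, ?_, ?_, ?_, hK0⟩
    · intro p hp q hq _
      exact hYN.trans (Nat.mul_le_mul (hD p hp).2.1 (hD q hq).2.1)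
    · intro p hp
      exact hKY.trans_le (hD p hp).2.1
    · intro q hq
      rw [hL]
      refine Nat.mul_le_mul_left _ ?_
      exact Nat.mul_le_mul_right _ (hD q hq).2.2
    · omega
  have hmid : ∀ q ∈ D, q * B + 2 * L ≤ N := by
    intro q hq
    have := hqB q hq
    omega
  have h1 := VV_ge (a := b) hctx hmid
  have h2 := main (a := b) hctx hc1 h0 hSB hms hX0 hXK hY2 hYK
  have h1' : (B : ℝ) ^ 2 * ((#D : ℝ) * B) ^ 2 ≤ #(cov N D b) * #(VV N D b B L) := by
    exact_mod_cast h1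
  exact h1'.trans (mul_le_mul_of_nonneg_left h2 (Nat.cast_nonneg _))

/-- the exponent from pairs of meeting classes -/
theorem exp_hybrid {ms : Finset ℕ} {c : ℝ} (hc1 : 1 < c) (h0 : ms.Nonempty)
    (hpos : ∀ m ∈ ms, 0 < m) (hSB : SliceBound ms c) {α : ℝ} (hα : 1 / 2 < α) (hα1 : α < 1) :
    LowerExponent α (min (1 - α / 3) (2 * c * (2 - α) / (4 * c - 1))) := by
  intro ε hε
  obtain ⟨K, hK, hmain⟩ := tri_nat hc1 h0 hpos hSB
  set η : ℝ := min (ε / 8) (1 / 2) with hη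
  have hη0 : 0 < η := lt_min (by linarith) (by norm_num)
  have hη1 : η ≤ 1 / 2 := min_le_right _ _
  have hηε : 8 * η ≤ ε := by
    have := min_le_left (ε / 8) (1 / 2 : ℝ)
    linarith
  have hc0 : 0 < 4 * c - 1 := by linarith
  have hcc : 0 < c := by linarith
  set e : ℝ := min (1 - α / 3) (2 * c * (2 - α) / (4 * c - 1)) - ε with he
  have he1 : e ≤ 1 - α / 3 - ε := by
    have := min_le_left (1 - α / 3) (2 * c * (2 - α) / (4 * c - 1))
    linarith
  have h4c : 0 < 4 - 1 / c := by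
    have : 1 / c < 1 := by rw [div_lt_one hcc]; exact hc1
    linarith
  have he2 : (4 - 1 / c) * e ≤ 4 - 2 * α - 3 * ε := by
    have h1 := min_le_right (1 - α / 3) (2 * c * (2 - α) / (4 * c - 1))
    have h2 : e ≤ 2 * c * (2 - α) / (4 * c - 1) - ε := by linarith
    calc (4 - 1 / c) * e ≤ (4 - 1 / c) * (2 * c * (2 - α) / (4 * c - 1) - ε) :=
          mul_le_mul_of_nonneg_left h2 h4c.le
      _ = 4 - 2 * α - (4 - 1 / c) * ε := by
          have h3 : (4 - 1 / c) = (4 * c - 1) / c := by field_simp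
          have h5 : (4 - 1 / c) * (2 * c * (2 - α) / (4 * c - 1)) = 4 - 2 * α := by
            rw [h3]
            field_simp
            ring
          rw [mul_sub, h5]
      _ ≤ _ := by
          have : 1 / c < 1 := by rw [div_lt_one hcc]; exact hc1
          nlinarith
  have hev : ∀ᶠ N : ℕ in atTop, ∀ a : (p : ℕ) → ZMod p,
      (N : ℝ) ^ e ≤ (coveredCount α N a : ℝ) := by
    filter_upwards [ev_card (by linarith : 0 < α) hα1.le hη0 (by linarith),
      ev_div (by linarith : 0 < α) hα1 hη0 (8 * K) (by positivity),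
      ev_const (2 * (ms.card + 4)) hη0,
      ev_const (K + 1) (by linarith : 0 < α), eventually_gt_atTop 1]
      with N h1 h2 h3 h5 hN1 a
    have hN0 : (0 : ℝ) < N := by exact_mod_cast (by omega : 0 < N)
    have hN1' : (1 : ℝ) < N := by exact_mod_cast hN1
    rw [coveredCount_eq]
    set Yc := ⌈(N : ℝ) ^ α⌉₊ with hYc
    set B := N / ((8 * K) * Yc) - 1 with hB
    set D := PD α N with hDdef
    by_contra hcon
    push Not at hcon
    have hYr : (N : ℝ) ^ α ≤ Yc := Nat.le_ceil _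
    have hKY : K < Yc := by
      have : (K : ℝ) + 1 ≤ Yc := h5.trans hYr
      have : (K : ℝ) < Yc := by linarith
      exact_mod_cast this
    have hY0 : 0 < Yc := by omega
    have hYN : N ≤ Yc * Yc := by
      have : (N : ℝ) ≤ Yc * Yc := by
        calc (N : ℝ) = (N : ℝ) ^ (1 : ℝ) := (Real.rpow_one _).symm
          _ ≤ (N : ℝ) ^ (α + α) := Real.rpow_le_rpow_of_exponent_le hN1'.le (by linarith)
          _ = (N : ℝ) ^ α * (N : ℝ) ^ α := Real.rpow_add hN0 _ _
          _ ≤ Yc * Yc := by gcongr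
      exact_mod_cast this
    have hB0 : 0 < B := by
      have : (0 : ℝ) < (B : ℝ) := lt_of_lt_of_le (Real.rpow_pos_of_pos hN0 _) h2
      exact_mod_cast this
    have hBN : B * (8 * K * Yc) < N := by
      have h6 : N / ((8 * K) * Yc) * ((8 * K) * Yc) ≤ N := Nat.div_mul_le_self _ _
      have h7 : B + 1 ≤ N / ((8 * K) * Yc) := by omega
      have h8 : (B + 1) * ((8 * K) * Yc) ≤ N := (Nat.mul_le_mul_right _ h7).trans h6
      have h9 : 0 < (8 * K) * Yc := by positivity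
      nlinarith
    -- upper bound for `B`
    have hBup : (B : ℝ) ≤ (N : ℝ) ^ (1 - α) := by
      have g1 : B * Yc ≤ N := by
        calc B * Yc ≤ B * (8 * K * Yc) := by
              refine Nat.mul_le_mul_left _ ?_
              nlinarith
          _ ≤ N := hBN.le
      have g2 : (B : ℝ) * Yc ≤ N := by exact_mod_cast g1
      have g3 : (0:ℝ) < (N : ℝ) ^ α := Real.rpow_pos_of_pos hN0 _
      have g4 : (N : ℝ) ^ (1 - α) * (N : ℝ) ^ α = N := by
        rw [← Real.rpow_add hN0]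
        simp
      have g5 : (B : ℝ) * (N : ℝ) ^ α ≤ (N : ℝ) ^ (1 - α) * (N : ℝ) ^ α := by
        rw [g4]
        exact (mul_le_mul_of_nonneg_left hYr (Nat.cast_nonneg _)).trans g2
      exact le_of_mul_le_mul_right g5 g3
    have hlow : (N : ℝ) ^ (4 - 2 * α - 6 * η) ≤ (B : ℝ) ^ 2 * ((#D : ℝ) * B) ^ 2 := by
      have g1 : (N : ℝ) ^ (4 - 2 * α - 6 * η) =
          ((N : ℝ) ^ (1 - α - η)) ^ 2 * ((N : ℝ) ^ (α - η) * (N : ℝ) ^ (1 - α - η)) ^ 2 := by
        rw [← mul_pow, ← Real.rpow_add hN0, ← Real.rpow_add hN0, ← Real.rpow_natCast,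
          ← Real.rpow_mul hN0.le]
        congr 1
        push_cast
        ring
      rw [g1]
      gcongr
    have hm := hmain D a Yc N B (PD_prop (α := α) (N := N)) hYN hKY hBN
    have hn0 : (0 : ℝ) ≤ (#(Cov D a N) : ℝ) := Nat.cast_nonneg _
    generalize (#(Cov D a N) : ℝ) = n at *
    -- upper bound
    have u1 : n * (n ^ (1 - 1 / c) * (ms.card * n ^ 2)) ≤ ms.card * (N : ℝ) ^ (4 - 2 * α - 3 * ε) := by
      have g1 : n * (n ^ (1 - 1 / c) * (ms.card * n ^ 2)) = ms.card * n ^ (4 - 1 / c) := by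
        rcases hn0.eq_or_lt with g | g
        · rw [← g, Real.zero_rpow h4c.ne']
          simp
        · have : n ^ (4 - 1 / c) = n ^ (1 - 1 / c) * n ^ 3 := by
            rw [← Real.rpow_natCast, ← Real.rpow_add g]
            congr 1
            push_cast
            ring
          rw [this]
          ring
      rw [g1]
      refine mul_le_mul_of_nonneg_left ?_ (Nat.cast_nonneg _)
      calc n ^ (4 - 1 / c) ≤ ((N : ℝ) ^ e) ^ (4 - 1 / c) :=
            Real.rpow_le_rpow hn0 hcon.le h4c.le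
        _ = (N : ℝ) ^ ((4 - 1 / c) * e) := by rw [← Real.rpow_mul hN0.le, mul_comm]
        _ ≤ _ := Real.rpow_le_rpow_of_exponent_le hN1'.le he2
    have u2 : n * (B * (4 * n ^ 2)) ≤ 4 * (N : ℝ) ^ (4 - 2 * α - 3 * ε) := by
      calc n * (B * (4 * n ^ 2)) = 4 * ((B : ℝ) * n ^ 3) := by ring
        _ ≤ 4 * ((N : ℝ) ^ (1 - α) * ((N : ℝ) ^ e) ^ 3) := by gcongr
        _ = 4 * (N : ℝ) ^ ((1 - α) + 3 * e) := by
            rw [Real.rpow_add hN0, ← Real.rpow_natCast, ← Real.rpow_mul hN0.le]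
            congr 3
            push_cast
            ring
        _ ≤ _ := by
            refine mul_le_mul_of_nonneg_left ?_ (by norm_num)
            exact Real.rpow_le_rpow_of_exponent_le hN1'.le (by linarith)
    have hfin : (N : ℝ) ^ (4 - 2 * α - 6 * η) * 2 ≤ (N : ℝ) ^ (4 - 2 * α - 6 * η) := by
      have k1 : (N : ℝ) ^ (4 - 2 * α - 6 * η) ≤ (ms.card + 4) * (N : ℝ) ^ (4 - 2 * α - 3 * ε) := by
        rw [mul_add] at hm
        linarith
      have k2 : (0 : ℝ) < (N : ℝ) ^ (4 - 2 * α - 3 * ε) := Real.rpow_pos_of_pos hN0 _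
      have k3 : (N : ℝ) ^ η * (N : ℝ) ^ (4 - 2 * α - 3 * ε) ≤ (N : ℝ) ^ (4 - 2 * α - 6 * η) := by
        rw [← Real.rpow_add hN0]
        exact Real.rpow_le_rpow_of_exponent_le hN1'.le (by linarith)
      have k4 : (2 * (ms.card + 4) : ℝ) * (N : ℝ) ^ (4 - 2 * α - 3 * ε) ≤
          (N : ℝ) ^ η * (N : ℝ) ^ (4 - 2 * α - 3 * ε) := mul_le_mul_of_nonneg_right h3 k2.le
      linarith
    have : (0 : ℝ) < (N : ℝ) ^ (4 - 2 * α - 6 * η) := Real.rpow_pos_of_pos hN0 _
    linarith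
  obtain ⟨N₀, hN₀⟩ := eventually_atTop.mp hev
  exact ⟨N₀, fun N hN a => hN₀ N hN a⟩

end Pool.Agent.U148.CV
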