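import Pool.Agent.W814.BB.Flag

/-!
# Pairs of meeting classes with two scales, and the unclean ones

`dd A` is the set of the multiples `d = q i`, `1 ≤ i ≤ B`, of the primes `q` whose chosen class
contains `A`.  A triple `(A, d, d')` with `d, d' ∈ dd A` is *unclean* if the point `A + d'` is
congruent to another covered integer modulo the prime of `d`.
-/

set_option autoImplicit false

open Finset

namespace Pool.Agent.U148.CV

open Pool.Agent.H435R2.GreenCore Pool.Agent.W814.BB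

variable (N : ℕ) (Q : Finset ℕ) (a : ℕ → ℤ) (B L : ℕ)

/-- the middle part of `[1, N]` -/
noncomputable def mid : Finset ℤ := Icc ((L:ℤ) + 1) ((N:ℤ) - L)

/-- multiples `q i`, `1 ≤ i ≤ B`, of the primes `q` whose class contains `A` -/
noncomputable def dd (A : ℤ) : Finset ℤ :=
  (Icc (1:ℤ) N).filter (fun d => ∃ q ∈ Q, A ∈ line N a q ∧ (q:ℤ) ∣ d ∧ d ≤ (q:ℤ) * B)

/-- triples -/
noncomputable def VV : Finset (ℤ × ℤ × ℤ) :=
  (mid N L ×ˢ (Icc (1:ℤ) N ×ˢ Icc (1:ℤ) N)).filter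
    (fun v => v.2.1 ∈ dd N Q a B v.1 ∧ v.2.2 ∈ dd N Q a B v.1)

/-- unclean triples -/
def IsBad (v : ℤ × ℤ × ℤ) : Prop :=
  ∃ q ∈ Q, v.1 ∈ line N a q ∧ (q:ℤ) ∣ v.2.1 ∧ ∃ z ∈ cov N Q a, z ≠ v.1 + v.2.2 ∧
    (q:ℤ) ∣ z - (v.1 + v.2.2)

/-- unclean flags over the stem `q` -/
noncomputable def bf (q : ℕ) : Finset (ℤ × ℤ) := by
  classical
  exact (mid N L ×ˢ Icc (1:ℤ) N).filter (fun g => g.1 ∈ line N a q ∧ g.2 ∈ dd N Q a B g.1 ∧
    ∃ z ∈ cov N Q a, z ≠ g.1 + g.2 ∧ (q:ℤ) ∣ z - (g.1 + g.2))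

/-- hypotheses -/
structure Ctx (K : ℕ) : Prop where
  pr : ∀ p ∈ Q, p.Prime
  pq : ∀ p ∈ Q, ∀ q ∈ Q, p ≠ q → N ≤ p * q
  Kp : ∀ p ∈ Q, K < p
  hL : ∀ q ∈ Q, K * (q * B) ≤ L
  hLN : L < N
  K0 : 0 < K

variable {N Q a B L}

lemma mem_dd {A d : ℤ} : d ∈ dd N Q a B A ↔ (1 ≤ d ∧ d ≤ N) ∧
    ∃ q ∈ Q, A ∈ line N a q ∧ (q:ℤ) ∣ d ∧ d ≤ (q:ℤ) * B := by
  unfold dd
  rw [mem_filter, mem_Icc]

lemma mem_VV {v : ℤ × ℤ × ℤ} : v ∈ VV N Q a B L ↔ v.1 ∈ mid N L ∧ v.2.1 ∈ dd N Q a B v.1 ∧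
    v.2.2 ∈ dd N Q a B v.1 := by
  unfold VV
  rw [mem_filter, mem_product, mem_product]
  constructor
  · rintro ⟨⟨h1, -, -⟩, h2, h3⟩
    exact ⟨h1, h2, h3⟩
  · rintro ⟨h1, h2, h3⟩
    refine ⟨⟨h1, ?_, ?_⟩, h2, h3⟩
    · rw [mem_Icc]; exact (mem_dd.1 h2).1
    · rw [mem_Icc]; exact (mem_dd.1 h3).1

lemma cov_range {z : ℤ} (hz : z ∈ cov N Q a) : 1 ≤ z ∧ z ≤ N := by
  unfold cov at hz
  rw [mem_biUnion] at hz
  obtain ⟨r, _, hr⟩ := hz
  exact (mem_line.1 hr).1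

lemma dd_le {K : ℕ} (h : Ctx N Q B L K) {A d : ℤ} (hd : d ∈ dd N Q a B A) : (K:ℤ) * d ≤ L := by
  obtain ⟨-, q, hq, -, -, h4⟩ := mem_dd.1 hd
  have h5 : ((K * (q * B) : ℕ) : ℤ) ≤ L := by exact_mod_cast h.hL q hq
  push_cast at h5
  have h6 : (0:ℤ) ≤ K := by positivity
  nlinarith [mul_le_mul_of_nonneg_left h4 h6]

lemma dd_lt {K : ℕ} (h : Ctx N Q B L K) {A d : ℤ} (hd : d ∈ dd N Q a B A) : |d| < N := by
  have h1 := dd_le h hd
  have h2 := (mem_dd.1 hd).1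
  have h3 : (1:ℤ) ≤ K := by exact_mod_cast h.K0
  have h4 : (L:ℤ) < N := by exact_mod_cast h.hLN
  rw [abs_lt]
  constructor
  · omega
  · nlinarith

/-- points of the line of a flag -/
lemma dd_point {K : ℕ} (h : Ctx N Q B L K) {A d : ℤ} (hA : A ∈ mid N L) (hd : d ∈ dd N Q a B A)
    {t : ℤ} (ht : |t| ≤ K) : A + t * d ∈ cov N Q a := by
  have h1 := dd_le h hd
  obtain ⟨⟨hd1, hd2⟩, q, hq, hAq, hqd, h4⟩ := mem_dd.1 hd
  unfold mid at hA
  rw [mem_Icc] at hA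
  rw [mem_line] at hAq
  unfold cov
  rw [mem_biUnion]
  refine ⟨q, hq, ?_⟩
  rw [mem_line]
  rw [abs_le] at ht
  have h5 : t * d ≤ L := by nlinarith
  have h6 : -(L:ℤ) ≤ t * d := by nlinarith
  refine ⟨⟨by omega, by omega⟩, ?_⟩
  have : A + t * d - a q = (A - a q) + t * d := by ring
  rw [this]
  exact dvd_add hAq.2 (hqd.mul_left t)

/-- the prime of a multiple -/
lemma prime_eq {K : ℕ} (h : Ctx N Q B L K) {A d : ℤ} (hd : d ∈ dd N Q a B A) {p q : ℕ}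
    (hp : p ∈ Q) (hq : q ∈ Q) (hpd : (p:ℤ) ∣ d) (hqd : (q:ℤ) ∣ d) : p = q := by
  by_contra hne
  have := unique_prime h.pr h.pq hp hq hne hpd hqd (dd_lt h hd)
  have h2 := (mem_dd.1 hd).1
  omega

lemma Ctx.cast_ne {K : ℕ} (h : Ctx N Q B L K) {q : ℕ} (hq : q ∈ Q) {t : ℤ} (ht0 : t ≠ 0)
    (ht : |t| ≤ K) : ((t : ℤ) : ZMod q) ≠ 0 := by
  intro h0
  rw [ZMod.intCast_zmod_eq_zero_iff_dvd] at h0
  have h1 := Int.le_of_dvd (abs_pos.2 ht0) ((dvd_abs _ _).2 h0)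
  have h2 : (K:ℤ) < q := by exact_mod_cast h.Kp q hq
  omega

lemma cast_eq_iff {p : ℕ} {z w : ℤ} : ((z : ℤ) : ZMod p) = (w : ZMod p) ↔ (p:ℤ) ∣ z - w := by
  rw [← sub_eq_zero, ← Int.cast_sub, ZMod.intCast_zmod_eq_zero_iff_dvd]

lemma arith_bad (x y : ℕ) (hx : 2 ≤ x) : x * y ≤ 2 * (x * (x - 1)) + 2 * (y * (y - 1)) := by
  obtain ⟨k, rfl⟩ := Nat.exists_eq_add_of_le hx
  rcases Nat.lt_or_ge y 2 with h | h
  · interval_cases y
    · simp
    · have : 2 + k - 1 = k + 1 := by omega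
      rw [this]
      nlinarith
  · obtain ⟨l, rfl⟩ := Nat.exists_eq_add_of_le h
    have e1 : 2 + k - 1 = k + 1 := by omega
    have e2 : 2 + l - 1 = l + 1 := by omega
    rw [e1, e2]
    nlinarith [sq_nonneg ((k:ℤ) - l), two_mul_le_add_sq k l]

/-- the unclean flags over a stem -/
lemma bf_card {K : ℕ} (h : Ctx N Q B L K) {Y : ℕ} (hY : 2 ≤ Y) (hYK : Y ≤ K) {q : ℕ}
    (hq : q ∈ Q) : #(bf N Q a B L q) + 4 * #(cov N Q a) ≤ 4 * #(par N Q a q) := by
  classical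
  have hp := h.pr q hq
  have : Fact q.Prime := ⟨hp⟩
  have : NeZero q := ⟨hp.ne_zero⟩
  set S := cov N Q a with hS
  set ν : ZMod q → ℕ := fun u => nu N Q a q u with hν
  have hY0 : ((Y:ℤ) : ZMod q) ≠ 0 := by
    refine h.cast_ne hq (by omega) ?_
    rw [abs_le]
    constructor
    · have : (0:ℤ) ≤ K := by positivity
      have : (0:ℤ) ≤ Y := by positivity
      omega
    · exact_mod_cast hYK
  set σ : ZMod q → ZMod q := fun u => (a q : ZMod q) + ((Y:ℤ) : ZMod q) * (u - (a q : ZMod q))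
    with hσ
  set T := (S ×ˢ S).filter (fun w : ℤ × ℤ => 2 ≤ ν ((w.1 : ℤ) : ZMod q) ∧
    ((w.2 : ℤ) : ZMod q) = σ ((w.1 : ℤ) : ZMod q)) with hT
  have h1 : #(bf N Q a B L q) ≤ #T := by
    refine card_le_card_of_injOn (fun g => (g.1 + g.2, g.1 + (Y:ℤ) * g.2)) ?_ ?_
    · intro g hg
      have hg' := mem_coe.1 hg
      unfold bf at hg'
      rw [mem_filter, mem_product] at hg'
      obtain ⟨⟨hA, -⟩, hAq, hd, z, hz, hzne, hzd⟩ := hg'
      have k1 : g.1 + g.2 ∈ S := by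
        have := dd_point h hA hd (t := 1) (by
          have : (1:ℤ) ≤ K := by exact_mod_cast h.K0
          simpa using this)
        rwa [one_mul] at this
      have k2 : g.1 + (Y:ℤ) * g.2 ∈ S := by
        refine dd_point h hA hd ?_
        rw [abs_of_nonneg (by positivity)]
        exact_mod_cast hYK
      have k3 : ((g.1 : ℤ) : ZMod q) = (a q : ZMod q) := cast_eq_iff.2 (mem_line.1 hAq).2
      rw [mem_coe, hT, mem_filter, mem_product]
      refine ⟨⟨k1, k2⟩, ?_, ?_⟩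
      · rw [hν]
        dsimp only
        unfold nu
        have : ({g.1 + g.2, z} : Finset ℤ) ⊆ (cov N Q a).filter
            (fun w : ℤ => ((w : ℤ) : ZMod q) = ((g.1 + g.2 : ℤ) : ZMod q)) := by
          intro w hw
          rw [mem_insert, mem_singleton] at hw
          rw [mem_filter]
          rcases hw with rfl | rfl
          · exact ⟨k1, rfl⟩
          · exact ⟨hz, cast_eq_iff.2 hzd⟩
        have h2 := card_le_card this
        rwa [card_pair (Ne.symm hzne)] at h2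
      · rw [hσ]
        dsimp only
        push_cast
        rw [k3]
        ring
    · intro g _ g' _ hgg
      simp only [Prod.mk.injEq] at hgg
      obtain ⟨e1, e2⟩ := hgg
      have e3 : ((Y:ℤ) - 1) * g.2 = ((Y:ℤ) - 1) * g'.2 := by linear_combination e2 - e1
      have e4 : ((Y:ℤ) - 1) ≠ 0 := by omega
      have e5 := mul_left_cancel₀ e4 e3
      ext
      · omega
      · exact e5
  have h2 : #T ≤ ∑ u : ZMod q, (2 * (ν u * (ν u - 1)) + 2 * (ν (σ u) * (ν (σ u) - 1))) := by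
    rw [card_eq_sum_card_fiberwise (f := fun w : ℤ × ℤ => ((w.1 : ℤ) : ZMod q)) (t := univ)
      (by intro x _; simp)]
    refine sum_le_sum fun u _ => ?_
    by_cases hu : 2 ≤ ν u
    · refine le_trans ?_ (arith_bad (ν u) (ν (σ u)) hu)
      rw [hν]
      dsimp only
      unfold nu
      rw [← card_product]
      refine card_le_card ?_
      intro w hw
      rw [mem_filter, hT, mem_filter, mem_product] at hw
      obtain ⟨⟨⟨w1, w2⟩, -, w3⟩, w4⟩ := hw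
      rw [mem_product, mem_filter, mem_filter]
      exact ⟨⟨w1, w4⟩, w2, by rw [w3, w4]⟩
    · have : (T.filter (fun w : ℤ × ℤ => ((w.1 : ℤ) : ZMod q) = u)) = ∅ := by
        rw [filter_eq_empty_iff]
        intro w hw hwu
        rw [hT, mem_filter] at hw
        rw [hwu] at hw
        exact hu hw.2.1
      rw [this]
      simp
  have hσb : Function.Bijective σ := by
    refine (Finite.injective_iff_bijective).1 ?_
    intro u u' huu
    rw [hσ] at huu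
    dsimp only at huu
    have := mul_left_cancel₀ hY0 (add_left_cancel huu)
    exact sub_left_injective this
  have h3 : ∑ u : ZMod q, ν (σ u) * (ν (σ u) - 1) = ∑ u : ZMod q, ν u * (ν u - 1) :=
    hσb.sum_comp (fun u => ν u * (ν u - 1))
  have h4 : ∑ u : ZMod q, ν u * (ν u - 1) + #S = #(par N Q a q) := by
    rw [hS, ← sum_nu (N := N) (Q := Q) (a := a) q, ← sum_nu_sq (N := N) (Q := Q) (a := a) q,
      ← sum_add_distrib]
    refine sum_congr rfl fun u _ => ?_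
    rw [hν]
    dsimp only
    rcases Nat.eq_zero_or_pos (nu N Q a q u) with h0 | h0
    · rw [h0]; rfl
    · obtain ⟨k, hk⟩ := Nat.exists_eq_add_of_lt h0
      rw [hk]
      have : 0 + k + 1 - 1 = k := by omega
      rw [this]
      ring
  rw [sum_add_distrib, ← mul_sum, ← mul_sum, h3] at h2
  omega

/-- all unclean flags -/
lemma sum_bf {K : ℕ} (h : Ctx N Q B L K) {Y : ℕ} (hY : 2 ≤ Y) (hYK : Y ≤ K) :
    ∑ q ∈ Q, #(bf N Q a B L q) ≤ 4 * #(cov N Q a) ^ 2 := by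
  have h1 : ∑ q ∈ Q, (#(bf N Q a B L q) + 4 * #(cov N Q a)) ≤ ∑ q ∈ Q, 4 * #(par N Q a q) :=
    sum_le_sum fun q hq => bf_card h hY hYK hq
  have h2 := sum_par_le N Q a h.pq h.pr
  rw [sum_add_distrib, sum_const, smul_eq_mul, ← mul_sum] at h1
  nlinarith

open Classical in
/-- the unclean triples -/
lemma bad_card {K : ℕ} (h : Ctx N Q B L K) {Y : ℕ} (hY : 2 ≤ Y) (hYK : Y ≤ K) :
    #((VV N Q a B L).filter (IsBad N Q a)) ≤ B * (4 * #(cov N Q a) ^ 2) := by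
  have hsub : (VV N Q a B L).filter (IsBad N Q a) ⊆ Q.biUnion (fun q =>
      ((Icc 1 B) ×ˢ bf N Q a B L q).image (fun w : ℕ × ℤ × ℤ => (w.2.1, (q:ℤ) * w.1, w.2.2))) := by
    intro v hv
    rw [mem_filter, mem_VV] at hv
    obtain ⟨⟨hA, hd, hd'⟩, q, hq, hAq, hqd, z, hz, hzne, hzd⟩ := hv
    rw [mem_biUnion]
    refine ⟨q, hq, ?_⟩
    obtain ⟨⟨d1, d2⟩, q', hq', -, hqd', hdB⟩ := mem_dd.1 hd
    have : q = q' := prime_eq h hd hq hq' hqd hqd'
    subst this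
    obtain ⟨i, hi⟩ := hqd
    have hq0 : (0:ℤ) < q := by exact_mod_cast (h.pr q hq).pos
    have hi1 : 1 ≤ i := by
      by_contra hcon
      have : i ≤ 0 := by omega
      nlinarith
    have hiB : i ≤ B := by
      rw [hi] at hdB
      exact le_of_mul_le_mul_left hdB hq0
    rw [mem_image]
    refine ⟨(i.toNat, v.1, v.2.2), ?_, ?_⟩
    · rw [mem_product]
      refine ⟨?_, ?_⟩
      · rw [mem_Icc]
        dsimp only
        omega
      · unfold bf
        rw [mem_filter, mem_product]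
        refine ⟨⟨hA, ?_⟩, hAq, hd', z, hz, hzne, hzd⟩
        rw [mem_Icc]
        exact (mem_dd.1 hd').1
    · dsimp only
      rw [Int.toNat_of_nonneg (by omega), ← hi]
  calc #((VV N Q a B L).filter (IsBad N Q a)) ≤ _ := card_le_card hsub
    _ ≤ ∑ q ∈ Q, #(((Icc 1 B) ×ˢ bf N Q a B L q).image
        (fun w : ℕ × ℤ × ℤ => (w.2.1, (q:ℤ) * w.1, w.2.2))) := card_biUnion_le
    _ ≤ ∑ q ∈ Q, B * #(bf N Q a B L q) := by
        refine sum_le_sum fun q _ => ?_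
        refine card_image_le.trans ?_
        rw [card_product, Nat.card_Icc]
        simp
    _ = B * ∑ q ∈ Q, #(bf N Q a B L q) := by rw [mul_sum]
    _ ≤ _ := Nat.mul_le_mul_left _ (sum_bf h hY hYK)

end Pool.Agent.U148.CV
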