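import Pool.Agent.U148.CV.Bad

/-!
# The triples with a given value of `A + X d + Y d'`
-/

set_option autoImplicit false

open Finset

namespace Pool.Agent.U148.CV

open Pool.Agent.H435R2.GreenCore Pool.Agent.W814.BB

variable (N : ℕ) (Q : Finset ℕ) (a : ℕ → ℤ) (B L X Y : ℕ)

/-- the functional -/
def Pv (v : ℤ × ℤ × ℤ) : ℤ := v.1 + (X:ℤ) * v.2.1 + (Y:ℤ) * v.2.2

open Classical in
/-- clean triples -/
noncomputable def CC : Finset (ℤ × ℤ × ℤ) := (VV N Q a B L).filter (fun v => ¬ IsBad N Q a v)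

open Classical in
/-- clean triples with a given value of the functional -/
noncomputable def WW (P : ℤ) : Finset (ℤ × ℤ × ℤ) :=
  (CC N Q a B L).filter (fun v => Pv X Y v = P)

open Classical in
/-- covered integers `z` which are points at height `m` of a flag with given functional -/
noncomputable def ZZ (m : ℕ) (P : ℤ) : Finset ℤ :=
  (cov N Q a).filter (fun z => ∃ z' ∈ cov N Q a, (X:ℤ) * z - ((X:ℤ) - m) * z' = m * P)

variable {N Q a B L X Y}

/-- given the functional, the point `A + Y d'` determines a clean triple -/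
lemma WW_inj {K : ℕ} (h : Ctx N Q B L K) (hX : 0 < X) (hY : 2 ≤ Y) (hYK : Y ≤ K) (P : ℤ) :
    Set.InjOn (fun v : ℤ × ℤ × ℤ => v.1 + (Y:ℤ) * v.2.2)
      ((WW N Q a B L X Y P : Finset (ℤ × ℤ × ℤ)) : Set (ℤ × ℤ × ℤ)) := by
  classical
  have hKr : (1:ℤ) ≤ K := by exact_mod_cast h.K0
  have hXr : (1:ℤ) ≤ X := by exact_mod_cast hX
  have hYr : (2:ℤ) ≤ Y := by exact_mod_cast hY
  have hYKr : (Y:ℤ) ≤ K := by exact_mod_cast hYK
  · intro v hv w hw hvw
    have hv' := mem_coe.1 hv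
    have hw' := mem_coe.1 hw
    unfold WW CC at hv' hw'
    rw [mem_filter, mem_filter, mem_VV] at hv' hw'
    obtain ⟨⟨⟨vA, vd, vd'⟩, vb⟩, vP⟩ := hv'
    obtain ⟨⟨⟨wA, wd, wd'⟩, wb⟩, wP⟩ := hw'
    dsimp only at hvw
    unfold Pv at vP wP
    have e1 : v.2.1 = w.2.1 := by
      have : (X:ℤ) * v.2.1 = X * w.2.1 := by linear_combination vP - wP - hvw
      exact mul_left_cancel₀ (by omega) this
    obtain ⟨-, q, hq, hvq, hvqd, -⟩ := mem_dd.1 vd
    obtain ⟨-, q', hq', hwq, hwqd, -⟩ := mem_dd.1 wd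
    have hqq : q = q' := prime_eq h vd hq hq' hvqd (by rw [e1]; exact hwqd)
    subst hqq
    have hp := h.pr q hq
    have hpi : Prime (q:ℤ) := Nat.prime_iff_prime_int.1 hp
    have d1 : (q:ℤ) ∣ v.1 - w.1 := by
      have := dvd_sub (mem_line.1 hvq).2 (mem_line.1 hwq).2
      rwa [sub_sub_sub_cancel_right] at this
    have d2 : (q:ℤ) ∣ v.2.2 - w.2.2 := by
      have h1 : (q:ℤ) ∣ (Y:ℤ) * (v.2.2 - w.2.2) := by
        have : (Y:ℤ) * (v.2.2 - w.2.2) = -(v.1 - w.1) := by linear_combination hvw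
        rw [this]
        exact (dvd_neg).2 d1
      rcases hpi.dvd_or_dvd h1 with h2 | h2
      · exfalso
        have h3 := Int.le_of_dvd (by omega) h2
        have h4 : (K:ℤ) < q := by exact_mod_cast h.Kp q hq
        omega
      · exact h2
    have hwy : w.1 + w.2.2 ∈ cov N Q a := by
      have := dd_point h wA wd' (t := 1) (by simpa using hKr)
      rwa [one_mul] at this
    have e2 : w.1 + w.2.2 = v.1 + v.2.2 := by
      by_contra hne
      refine vb ⟨q, hq, hvq, hvqd, w.1 + w.2.2, hwy, hne, ?_⟩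
      have : w.1 + w.2.2 - (v.1 + v.2.2) = -((v.1 - w.1) + (v.2.2 - w.2.2)) := by ring
      rw [this]
      exact (dvd_neg).2 (dvd_add d1 d2)
    have e3 : v.2.2 = w.2.2 := by
      have : ((Y:ℤ) - 1) * v.2.2 = ((Y:ℤ) - 1) * w.2.2 := by linear_combination hvw + e2
      exact mul_left_cancel₀ (by omega) this
    have e4 : v.1 = w.1 := by omega
    exact Prod.ext e4 (Prod.ext e1 e3)

/-- the fibres have at most `|S|` elements -/
lemma WW_le {K : ℕ} (h : Ctx N Q B L K) (hX : 0 < X) (hY : 2 ≤ Y) (hYK : Y ≤ K)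
    (P : ℤ) : #(WW N Q a B L X Y P) ≤ #(cov N Q a) := by
  classical
  refine card_le_card_of_injOn (fun v => v.1 + (Y:ℤ) * v.2.2) ?_ (WW_inj h hX hY hYK P)
  intro v hv
  have hv' := mem_coe.1 hv
  unfold WW CC at hv'
  rw [mem_filter, mem_filter, mem_VV] at hv'
  rw [mem_coe]
  refine dd_point h hv'.1.1.1 hv'.1.1.2.2 ?_
  rw [abs_of_nonneg (by positivity)]
  exact_mod_cast hYK

/-- the sum over `P` of the sizes of the slices -/
lemma sum_ZZ {m : ℕ} (hm : 0 < m) (hmX : m < X) (Ps : Finset ℤ) :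
    ∑ P ∈ Ps, #(ZZ N Q a X m P) ≤ #(cov N Q a) ^ 2 := by
  classical
  have hmr : (0:ℤ) < m := by exact_mod_cast hm
  have hmX' : (m:ℤ) < X := by exact_mod_cast hmX
  rw [← card_sigma, sq, ← card_product]
  have hex : ∀ w : (Σ _ : ℤ, ℤ), ∃ z' : ℤ, w ∈ (Ps.sigma fun P => ZZ N Q a X m P) →
      z' ∈ cov N Q a ∧ (X:ℤ) * w.2 - ((X:ℤ) - m) * z' = m * w.1 := by
    intro w
    by_cases hw : w ∈ (Ps.sigma fun P => ZZ N Q a X m P)
    · have hw' := hw
      rw [mem_sigma] at hw'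
      unfold ZZ at hw'
      rw [mem_filter] at hw'
      obtain ⟨-, -, z', h1, h2⟩ := hw'
      exact ⟨z', fun _ => ⟨h1, h2⟩⟩
    · exact ⟨0, fun h => absurd h hw⟩
  choose f hf using hex
  refine card_le_card_of_injOn (fun w => (w.2, f w)) ?_ ?_
  · intro w hw
    have hw' := mem_coe.1 hw
    have h1 := hf w hw'
    rw [mem_sigma] at hw'
    unfold ZZ at hw'
    rw [mem_filter] at hw'
    rw [mem_coe, mem_product]
    exact ⟨hw'.2.1, h1.1⟩
  · intro w hw w' hw' hww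
    simp only [Prod.mk.injEq] at hww
    obtain ⟨e1, e2⟩ := hww
    have h1 := (hf w (mem_coe.1 hw)).2
    have h2 := (hf w' (mem_coe.1 hw')).2
    have e3 : w.1 = w'.1 := by
      have : (m:ℤ) * w.1 = m * w'.1 := by
        rw [← h1, ← h2, e1, e2]
      exact mul_left_cancel₀ (by omega) this
    obtain ⟨w1, w2⟩ := w
    obtain ⟨w1', w2'⟩ := w'
    dsimp only at e1 e3
    subst e1 e3
    rfl

/-- The fibre over `P`: since `P` and `d` determine a clean triple, the sums-differences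
inequality bounds the number of its elements by a power of the largest slice. -/
lemma WW_slice {K : ℕ} (h : Ctx N Q B L K) {ms : Finset ℕ} {c : ℝ} (hc : 0 ≤ c)
    (h0 : ms.Nonempty) (hSB : SliceBound ms c)
    (hms : ∀ m ∈ ms, 0 < m ∧ m < X ∧ (X - m) ∣ Y ∧ m * Y ≤ K) (hX : 0 < X) (hXK : X ≤ K)
    (hY : 2 ≤ Y) (hYK : Y ≤ K) (P : ℤ) :
    ∃ m ∈ ms, (#(WW N Q a B L X Y P) : ℝ) ≤ (#(ZZ N Q a X m P) : ℝ) ^ c := by
  classical
  set G : Finset (ℤ × ℤ) := (WW N Q a B L X Y P).image (fun v => (v.1, v.2.1)) with hG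
  -- the second coordinate is injective on the fibre
  have e0 : #(WW N Q a B L X Y P) = #(G.image Prod.snd) := by
    rw [hG, image_image, card_image_of_injOn]
    intro v hv w hw hvw
    refine WW_inj h hX hY hYK P hv hw ?_
    have hv' := mem_coe.1 hv
    have hw' := mem_coe.1 hw
    unfold WW at hv' hw'
    rw [mem_filter] at hv' hw'
    have h1 := hv'.2
    have h2 := hw'.2
    unfold Pv at h1 h2
    dsimp only [Function.comp] at hvw ⊢
    rw [hvw] at h1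
    linear_combination h1 - h2
  -- elements of `G`
  have hGmem : ∀ g ∈ G, g.1 ∈ mid N L ∧ g.2 ∈ dd N Q a B g.1 ∧
      ∃ d' ∈ dd N Q a B g.1, g.1 + (X:ℤ) * g.2 + (Y:ℤ) * d' = P := by
    intro g hg
    rw [hG, mem_image] at hg
    obtain ⟨v, hv, rfl⟩ := hg
    unfold WW CC at hv
    rw [mem_filter, mem_filter, mem_VV] at hv
    exact ⟨hv.1.1.1, hv.1.1.2.1, v.2.2, hv.1.1.2.2, hv.2⟩
  have hGpt : ∀ g ∈ G, ∀ m ∈ ms, g.1 + (m:ℤ) * g.2 ∈ ZZ N Q a X m P := by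
    intro g hg m hm
    obtain ⟨hA, hd, d', hd', hP⟩ := hGmem g hg
    obtain ⟨m1, m2, ⟨e, he⟩, m4⟩ := hms m hm
    have hXm : 0 < X - m := by omega
    have hmr : (0:ℤ) < m := by exact_mod_cast m1
    unfold ZZ
    rw [mem_filter]
    refine ⟨?_, g.1 - ((m * e : ℕ) : ℤ) * d', ?_, ?_⟩
    · refine dd_point h hA hd ?_
      rw [abs_of_nonneg (by omega)]
      exact_mod_cast (by omega : m ≤ K)
    · have := dd_point h hA hd' (t := -((m * e : ℕ) : ℤ)) (by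
        rw [abs_neg, abs_of_nonneg (by positivity)]
        have : m * e ≤ K := by
          refine le_trans (Nat.mul_le_mul_left m ?_) m4
          rw [he]
          exact Nat.le_mul_of_pos_left _ hXm
        exact_mod_cast this)
      have e1 : g.1 + -((m * e : ℕ) : ℤ) * d' = g.1 - ((m * e : ℕ) : ℤ) * d' := by ring
      rwa [e1] at this
    · have he' : (Y:ℤ) = ((X:ℤ) - m) * e := by
        have : ((Y:ℕ):ℤ) = ((X - m : ℕ) : ℤ) * e := by exact_mod_cast he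
        rw [this, Nat.cast_sub m2.le]
      rw [← hP, he']
      push_cast
      ring
  obtain ⟨m, hm, hmax⟩ := exists_mem_eq_sup ms h0
    (fun m => #(G.image fun g => g.1 + (m : ℤ) * g.2))
  refine ⟨m, hm, ?_⟩
  rw [e0]
  refine (hSB G).trans ?_
  rw [hmax]
  refine Real.rpow_le_rpow (Nat.cast_nonneg _) ?_ hc
  have : #(G.image fun g => g.1 + (m : ℤ) * g.2) ≤ #(ZZ N Q a X m P) := by
    refine card_le_card ?_
    intro z hz
    rw [mem_image] at hz
    obtain ⟨g, hg, rfl⟩ := hz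
    exact hGpt g hg m hm
  exact_mod_cast this

/-- the fibre over `P` in terms of the slices -/
lemma WW_comb {K : ℕ} (h : Ctx N Q B L K) {ms : Finset ℕ} {c : ℝ} (hc1 : 1 < c)
    (h0 : ms.Nonempty) (hSB : SliceBound ms c)
    (hms : ∀ m ∈ ms, 0 < m ∧ m < X ∧ (X - m) ∣ Y ∧ m * Y ≤ K) (hX : 0 < X) (hXK : X ≤ K)
    (hY : 2 ≤ Y) (hYK : Y ≤ K) (P : ℤ) :
    (#(WW N Q a B L X Y P) : ℝ) ≤ (#(cov N Q a) : ℝ) ^ (1 - 1 / c) *
      ∑ m ∈ ms, (#(ZZ N Q a X m P) : ℝ) := by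
  obtain ⟨m, hm, h2⟩ := WW_slice (a := a) h (by linarith : 0 ≤ c) h0 hSB hms hX hXK hY hYK P
  have hwn : (#(WW N Q a B L X Y P) : ℝ) ≤ (#(cov N Q a) : ℝ) := by
    exact_mod_cast WW_le h hX hY hYK P
  have hZs : (#(ZZ N Q a X m P) : ℝ) ≤ ∑ m ∈ ms, (#(ZZ N Q a X m P) : ℝ) :=
    single_le_sum (f := fun m => (#(ZZ N Q a X m P) : ℝ)) (fun _ _ => Nat.cast_nonneg _) hm
  have hw0 : (0:ℝ) ≤ (#(WW N Q a B L X Y P) : ℝ) := Nat.cast_nonneg _
  have hn0 : (0:ℝ) ≤ (#(cov N Q a) : ℝ) := Nat.cast_nonneg _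
  have hZ0 : (0:ℝ) ≤ (#(ZZ N Q a X m P) : ℝ) := Nat.cast_nonneg _
  generalize (#(WW N Q a B L X Y P) : ℝ) = w at *
  generalize (#(ZZ N Q a X m P) : ℝ) = Z at *
  generalize (#(cov N Q a) : ℝ) = n at *
  have hc0 : 0 < c := by linarith
  have hc1' : 0 < 1 / c := one_div_pos.2 hc0
  have e1 : w = w ^ (1 - 1 / c) * w ^ (1 / c) := by
    rcases hw0.eq_or_lt with h5 | h5
    · rw [← h5, Real.zero_rpow (x := 1 / c) hc1'.ne', mul_zero]
    · rw [← Real.rpow_add h5]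
      have : 1 - 1 / c + 1 / c = 1 := by ring
      rw [this, Real.rpow_one]
  have e2 : (0:ℝ) ≤ 1 - 1 / c := by
    rw [sub_nonneg, div_le_one hc0]
    exact hc1.le
  have e3 : w ^ (1 - 1 / c) ≤ n ^ (1 - 1 / c) := Real.rpow_le_rpow hw0 hwn e2
  have e4 : w ^ (1 / c) ≤ Z := by
    calc w ^ (1 / c) ≤ (Z ^ c) ^ (1 / c) := Real.rpow_le_rpow hw0 h2 hc1'.le
      _ = Z := by rw [← Real.rpow_mul hZ0, mul_one_div_cancel hc0.ne', Real.rpow_one]
  calc w = w ^ (1 - 1 / c) * w ^ (1 / c) := e1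
    _ ≤ n ^ (1 - 1 / c) * Z := mul_le_mul e3 e4 (Real.rpow_nonneg hw0 _) (Real.rpow_nonneg hn0 _)
    _ ≤ _ := mul_le_mul_of_nonneg_left hZs (Real.rpow_nonneg hn0 _)

/-- The main inequality. -/
theorem main {K : ℕ} (h : Ctx N Q B L K) {ms : Finset ℕ} {c : ℝ} (hc1 : 1 < c)
    (h0 : ms.Nonempty) (hSB : SliceBound ms c)
    (hms : ∀ m ∈ ms, 0 < m ∧ m < X ∧ (X - m) ∣ Y ∧ m * Y ≤ K) (hX : 0 < X) (hXK : X ≤ K)
    (hY : 2 ≤ Y) (hYK : Y ≤ K) :
    (#(VV N Q a B L) : ℝ) ≤ (#(cov N Q a) : ℝ) ^ (1 - 1 / c) *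
      (ms.card * (#(cov N Q a) : ℝ) ^ 2) + B * (4 * (#(cov N Q a) : ℝ) ^ 2) := by
  classical
  have h1 : #(VV N Q a B L) = #(CC N Q a B L) + #((VV N Q a B L).filter (IsBad N Q a)) := by
    have := card_filter_add_card_filter_not (s := VV N Q a B L) (IsBad N Q a)
    unfold CC
    convert this.symm.trans (add_comm _ _) using 2
  have h2 : (#((VV N Q a B L).filter (IsBad N Q a)) : ℝ) ≤ B * (4 * (#(cov N Q a) : ℝ) ^ 2) := by
    exact_mod_cast bad_card h hY hYK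
  have h3 : (#(CC N Q a B L) : ℝ) ≤ (#(cov N Q a) : ℝ) ^ (1 - 1 / c) *
      (ms.card * (#(cov N Q a) : ℝ) ^ 2) := by
    set Ps := (CC N Q a B L).image (Pv X Y) with hPs
    have e1 : #(CC N Q a B L) = ∑ P ∈ Ps, #(WW N Q a B L X Y P) := by
      unfold WW
      exact card_eq_sum_card_image (Pv X Y) (CC N Q a B L)
    have e2 : (#(CC N Q a B L) : ℝ) = ∑ P ∈ Ps, (#(WW N Q a B L X Y P) : ℝ) := by
      rw [e1]
      push_cast
      rfl
    rw [e2]
    calc ∑ P ∈ Ps, (#(WW N Q a B L X Y P) : ℝ)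
        ≤ ∑ P ∈ Ps, (#(cov N Q a) : ℝ) ^ (1 - 1 / c) * ∑ m ∈ ms, (#(ZZ N Q a X m P) : ℝ) :=
          sum_le_sum fun P _ => WW_comb h hc1 h0 hSB hms hX hXK hY hYK P
      _ = (#(cov N Q a) : ℝ) ^ (1 - 1 / c) * ∑ m ∈ ms, ∑ P ∈ Ps, (#(ZZ N Q a X m P) : ℝ) := by
          rw [← mul_sum, sum_comm]
      _ ≤ _ := by
          refine mul_le_mul_of_nonneg_left ?_ (Real.rpow_nonneg (Nat.cast_nonneg _) _)
          calc ∑ m ∈ ms, ∑ P ∈ Ps, (#(ZZ N Q a X m P) : ℝ)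
              ≤ ∑ _m ∈ ms, (#(cov N Q a) : ℝ) ^ 2 := by
                refine sum_le_sum fun m hm => ?_
                exact_mod_cast sum_ZZ (N := N) (Q := Q) (a := a) (hms m hm).1 (hms m hm).2.1 Ps
            _ = _ := by rw [sum_const, nsmul_eq_mul]
  rw [h1]
  push_cast
  linarith

end Pool.Agent.U148.CV
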