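import Pool.Agent.U148.CV.Fib

/-!
# The number of triples
-/

set_option autoImplicit false

open Finset

namespace Pool.Agent.U148.CV

open Pool.Agent.H435R2.GreenCore Pool.Agent.W814.BB

variable {N : ℕ} {Q : Finset ℕ} {a : ℕ → ℤ} {B L : ℕ}

/-- `dd A` has at least `B` elements for each class through `A` -/
lemma dd_card {K : ℕ} (h : Ctx N Q B L K) (A : ℤ) :
    mult N Q a A * B ≤ #(dd N Q a B A) := by
  classical
  have e : mult N Q a A * B = #((Q.filter (fun q => A ∈ line N a q)) ×ˢ (Icc 1 B)) := by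
    rw [card_product, Nat.card_Icc]
    unfold mult
    simp
  rw [e]
  have hin : ∀ w ∈ ((Q.filter (fun q => A ∈ line N a q)) ×ˢ (Icc 1 B)),
      w.1 ∈ Q ∧ ((w.1:ℤ) * (w.2:ℤ)) ∈ dd N Q a B A := by
    rintro ⟨q, i⟩ hw
    rw [mem_product, mem_filter, mem_Icc] at hw
    obtain ⟨⟨hq, hA⟩, hi1, hi2⟩ := hw
    dsimp only at *
    have h1 := h.hL q hq
    have h2 := h.hLN
    have h3 := h.K0
    have h4 := (h.pr q hq).pos
    have h5 : q * i ≤ q * B := Nat.mul_le_mul_left _ hi2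
    have h6 : q * B ≤ K * (q * B) := Nat.le_mul_of_pos_left _ h3
    have h7 : 0 < q * i := by positivity
    refine ⟨hq, ?_⟩
    rw [mem_dd]
    refine ⟨⟨?_, ?_⟩, q, hq, hA, dvd_mul_right _ _, ?_⟩
    · exact_mod_cast h7
    · have : q * i ≤ N := by omega
      exact_mod_cast this
    · exact_mod_cast h5
  refine card_le_card_of_injOn (fun w : ℕ × ℕ => (w.1:ℤ) * (w.2:ℤ))
    (fun w hw => (hin w hw).2) ?_
  rintro ⟨q, i⟩ hw ⟨q', i'⟩ hw' hww
  dsimp only at hww
  have h1 := hin _ (mem_coe.1 hw)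
  have h2 := hin _ (mem_coe.1 hw')
  dsimp only at h1 h2
  have hqq : q = q' := prime_eq h h1.2 h1.1 h2.1 (dvd_mul_right _ _)
    (by rw [hww]; exact dvd_mul_right _ _)
  subst hqq
  have h3 : (q:ℤ) ≠ 0 := by exact_mod_cast (h.pr q h1.1).ne_zero
  have h4 := mul_left_cancel₀ h3 hww
  have h5 : i = i' := by exact_mod_cast h4
  rw [h5]

/-- the number of triples is at least the sum of the squares -/
lemma VV_card : ∑ A ∈ mid N L, #(dd N Q a B A) ^ 2 ≤ #(VV N Q a B L) := by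
  classical
  have e : ∑ A ∈ mid N L, #(dd N Q a B A) ^ 2 =
      #((mid N L).sigma (fun A => dd N Q a B A ×ˢ dd N Q a B A)) := by
    rw [card_sigma]
    refine sum_congr rfl fun A _ => ?_
    rw [card_product, sq]
  rw [e]
  refine card_le_card_of_injOn (fun w => (w.1, w.2.1, w.2.2)) ?_ ?_
  · intro w hw
    have hw' := mem_coe.1 hw
    rw [mem_sigma, mem_product] at hw'
    rw [mem_coe, mem_VV]
    exact ⟨hw'.1, hw'.2.1, hw'.2.2⟩
  · rintro ⟨A, d, d'⟩ _ ⟨A', e, e'⟩ _ hww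
    simp only [Prod.mk.injEq] at hww
    obtain ⟨rfl, rfl, rfl⟩ := hww
    rfl

/-- each class has at least `B` points in the middle part -/
lemma line_mid {q : ℕ} (hq : 0 < q) (hmid : q * B + 2 * L ≤ N) :
    B ≤ #((mid N L).filter (fun A => A ∈ line N a q)) := by
  classical
  have hqr : (0:ℤ) < q := by exact_mod_cast hq
  set x₀ : ℤ := (L:ℤ) + 1 + (a q - ((L:ℤ) + 1)) % q with hx
  have h1 : (L:ℤ) + 1 ≤ x₀ := by
    have := Int.emod_nonneg (a q - ((L:ℤ) + 1)) hqr.ne'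
    omega
  have h2 : x₀ ≤ L + q := by
    have := Int.emod_lt_of_pos (a q - ((L:ℤ) + 1)) hqr
    omega
  have h3 : (q:ℤ) ∣ x₀ - a q := by
    have := Int.emod_add_mul_ediv (a q - ((L:ℤ) + 1)) q
    refine ⟨-((a q - ((L:ℤ) + 1)) / q), ?_⟩
    rw [hx]
    linear_combination this
  have hm : (q:ℤ) * B + 2 * L ≤ N := by exact_mod_cast hmid
  have key : #(range B) ≤ #((mid N L).filter (fun A => A ∈ line N a q)) := by
    refine card_le_card_of_injOn (fun i : ℕ => x₀ + (q:ℤ) * i) ?_ ?_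
    · intro i hi
      rw [mem_coe, mem_range] at hi
      have hi' : (i:ℤ) + 1 ≤ B := by exact_mod_cast hi
      have hi0 : (0:ℤ) ≤ i := by positivity
      have h4 : (q:ℤ) * (i + 1) ≤ q * B := mul_le_mul_of_nonneg_left hi' hqr.le
      have h5 : (0:ℤ) ≤ q * i := by positivity
      have h6 : (q:ℤ) * (i + 1) = q * i + q := by ring
      have h7 : (0:ℤ) ≤ L := by positivity
      rw [mem_coe, mem_filter]
      dsimp only
      unfold mid
      rw [mem_Icc, mem_line]
      refine ⟨⟨by omega, by omega⟩, ⟨by omega, by omega⟩, ?_⟩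
      have : x₀ + (q:ℤ) * i - a q = (x₀ - a q) + q * i := by ring
      rw [this]
      exact dvd_add h3 (dvd_mul_right _ _)
    · intro i _ j _ hij
      dsimp only at hij
      have h4 : (q:ℤ) * i = q * j := by linear_combination hij
      have h5 := mul_left_cancel₀ hqr.ne' h4
      exact_mod_cast h5
  rwa [card_range] at key

/-- the incidences in the middle part -/
lemma mult_mid (hpr : ∀ q ∈ Q, q.Prime) (hmid : ∀ q ∈ Q, q * B + 2 * L ≤ N) :
    #Q * B ≤ ∑ A ∈ mid N L, mult N Q a A := by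
  classical
  have e : ∑ A ∈ mid N L, mult N Q a A =
      ∑ q ∈ Q, #((mid N L).filter (fun A => A ∈ line N a q)) := by
    unfold mult
    simp only [card_filter]
    rw [sum_comm]
  rw [e]
  calc #Q * B = ∑ _q ∈ Q, B := by rw [sum_const, smul_eq_mul]
    _ ≤ _ := sum_le_sum fun q hq => line_mid (hpr q hq).pos (hmid q hq)

/-- lower bound for the number of triples -/
theorem VV_ge {K : ℕ} (h : Ctx N Q B L K) (hmid : ∀ q ∈ Q, q * B + 2 * L ≤ N) :
    B ^ 2 * (#Q * B) ^ 2 ≤ #(cov N Q a) * #(VV N Q a B L) := by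
  classical
  set M := (mid N L).filter (fun A => A ∈ cov N Q a) with hM
  have hzero : ∀ A, A ∉ cov N Q a → mult N Q a A = 0 := by
    intro A hA
    unfold mult
    rw [card_eq_zero, filter_eq_empty_iff]
    intro q hq hAq
    refine hA ?_
    unfold cov
    rw [mem_biUnion]
    exact ⟨q, hq, hAq⟩
  have h1 : ∑ A ∈ mid N L, mult N Q a A = ∑ A ∈ M, mult N Q a A := by
    rw [hM, sum_filter]
    refine sum_congr rfl fun A _ => ?_
    by_cases hA : A ∈ cov N Q a
    · rw [if_pos hA]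
    · rw [if_neg hA, hzero A hA]
  have h2 : (∑ A ∈ M, mult N Q a A) ^ 2 ≤ #M * ∑ A ∈ M, mult N Q a A ^ 2 :=
    sq_sum_le_card_mul_sum_sq
  have h3 : #M ≤ #(cov N Q a) := by
    refine card_le_card ?_
    intro A hA
    rw [hM, mem_filter] at hA
    exact hA.2
  have h4 : B ^ 2 * ∑ A ∈ M, mult N Q a A ^ 2 ≤ #(VV N Q a B L) := by
    refine le_trans ?_ (VV_card (N := N) (Q := Q) (a := a) (B := B) (L := L))
    rw [mul_sum]
    calc ∑ A ∈ M, B ^ 2 * mult N Q a A ^ 2 ≤ ∑ A ∈ M, #(dd N Q a B A) ^ 2 := by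
          refine sum_le_sum fun A _ => ?_
          rw [← mul_pow, mul_comm]
          exact Nat.pow_le_pow_left (dd_card h A) 2
      _ ≤ _ := sum_le_sum_of_subset (by rw [hM]; exact filter_subset _ _)
  have h5 := mult_mid (N := N) (Q := Q) (a := a) (B := B) (L := L) h.pr hmid
  rw [h1] at h5
  calc B ^ 2 * (#Q * B) ^ 2 ≤ B ^ 2 * (∑ A ∈ M, mult N Q a A) ^ 2 := by gcongr
    _ ≤ B ^ 2 * (#M * ∑ A ∈ M, mult N Q a A ^ 2) := Nat.mul_le_mul_left _ h2
    _ = #M * (B ^ 2 * ∑ A ∈ M, mult N Q a A ^ 2) := by ring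
    _ ≤ #(cov N Q a) * #(VV N Q a B L) := Nat.mul_le_mul h3 h4

end Pool.Agent.U148.CV
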